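import Pool.Agent.helper96.SV.SpecA

set_option autoImplicit false

namespace Pool.Agent.SVA

open Polynomial Module

theorem ALG_vv_pos {K : Type} [Fintype K] [DecidableEq K] (m : K → ℕ) : 0 < vv m := by
  unfold vv
  exact Finset.prod_pos fun i _ => Nat.succ_pos _

/-- Every large `r` is good. -/
theorem ALG (hSTA : STA_stmt) (hBST : BST_stmt) (hSTP : STP_stmt) : ALG_stmt := by
  intro K _ _ _ m hK hm r hr
  have h1 : ∀ q : ℕ, ∃ s e x : ℕ, s ≤ q * DD m ∧ Good m e x (q + s * vv m) := by
    intro q
    induction q with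
    | zero =>
      refine ⟨0, 1, vv m, Nat.zero_le _, ?_⟩
      rw [Nat.zero_mul, Nat.zero_add]
      exact hSTA m
    | succ q ih =>
      obtain ⟨s, e, x, hs, hG⟩ := ih
      obtain ⟨L, e', x', hL, hG'⟩ := hSTP m hK hm e x (q + s * vv m) hG
      refine ⟨s + L, e', x', ?_, ?_⟩
      · rw [Nat.add_mul, Nat.one_mul]
        exact Nat.add_le_add hs hL
      · have h2 : q + 1 + (s + L) * vv m = q + s * vv m + L * vv m + 1 := by ring
        rw [h2]
        exact hG'
  have h2 : ∀ (t e x r : ℕ), Good m e x r → Good m (e + t * DD m) x (r + t * vv m) := by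
    intro t
    induction t with
    | zero =>
      intro e x r h
      rw [Nat.zero_mul, Nat.zero_mul, Nat.add_zero, Nat.add_zero]
      exact h
    | succ t ih =>
      intro e x r h
      have h3 := hBST m _ _ _ (ih e x r h)
      have h4 : e + (t + 1) * DD m = e + t * DD m + DD m := by ring
      have h5 : r + (t + 1) * vv m = r + t * vv m + vv m := by ring
      rw [h4, h5]
      exact h3
  have hv : 0 < vv m := ALG_vv_pos m
  obtain ⟨s, e, x, hs, hG⟩ := h1 (r % vv m)
  have hq : r % vv m < vv m := Nat.mod_lt _ hv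
  have hrq : vv m * (r / vv m) + r % vv m = r := Nat.div_add_mod r (vv m)
  have hs2 : s ≤ vv m * DD m := hs.trans (Nat.mul_le_mul_right _ hq.le)
  have hs3 : s ≤ r / vv m := by
    rw [Nat.le_div_iff_mul_le hv]
    calc s * vv m ≤ vv m * DD m * vv m := Nat.mul_le_mul_right _ hs2
      _ ≤ vv m * (1 + DD m * vv m) := by nlinarith
      _ ≤ r := hr
  obtain ⟨t, ht⟩ := Nat.exists_eq_add_of_le hs3
  refine ⟨e + t * DD m, x, ?_⟩
  have h6 : r = r % vv m + s * vv m + t * vv m := by
    calc r = vv m * (r / vv m) + r % vv m := hrq.symm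
      _ = vv m * (s + t) + r % vv m := by rw [ht]
      _ = r % vv m + s * vv m + t * vv m := by ring
  rw [h6]
  exact h2 t e x _ hG

end Pool.Agent.SVA
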