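import Pool.Agent.helper96.SV.SpecA

set_option autoImplicit false

namespace Pool.Agent.SVA

open Polynomial Module

/-- The critical numbers of points. -/
theorem CRI (hALG : ALG_stmt) (hDVV : DVV_stmt) (hMNO : MNO_stmt) : CRI_stmt := by
  intro K _ _ _ m hK hm e he r hr
  have hv : 0 < vv m := by
    unfold vv
    exact Finset.prod_pos fun i _ => Nat.succ_pos _
  have hD : 2 ≤ DD m := by
    unfold DD
    exact Nat.le_add_right _ _
  have hDv : DD m ≤ vv m := hDVV (by omega) hm
  generalize hvd : vv m = v at *
  generalize hDd : DD m = D at *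
  have hD0 : 0 < D := by omega
  have h1 : v * (1 + D * v) * D ≤ v * e := by
    calc v * (1 + D * v) * D = v * (D * (1 + D * v)) := by ring
      _ ≤ v * e := Nat.mul_le_mul_left _ he
  have h2 : v * (1 + D * v) ≤ v * e / D := by
    rw [Nat.le_div_iff_mul_le hD0]
    exact h1
  have h3 : v * (1 + D * v) ≤ r := by
    rcases hr with hr | hr
    · rw [hr]; exact h2
    · rw [hr]
      exact h2.trans (Nat.div_le_div_right (by omega))
  have h4 := hALG m hK hm r (by rw [hvd, hDd]; exact h3)
  obtain ⟨e', x, hG⟩ := h4
  obtain ⟨he1, hx1, hxv, heq, l, hl, hf1, hf2⟩ := hG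
  rw [hvd] at hxv heq
  rw [hDd] at heq
  refine ⟨l, hl, ?_⟩
  by_cases hc : v * e ≤ r * D
  · have h5 : e < e' := by
      by_contra hcon
      have h6 : e' ≤ e := by omega
      have h7 := Nat.mul_le_mul_left v h6
      omega
    have h6 := (hMNO e (e' - 1) l l (by omega) (fun P hP => hP)).2
    rw [hf2] at h6
    omega
  · have hc' : r * D < v * e := by omega
    have h5 : v * e < r * D + D := by
      rcases hr with hr | hr
      · have h6 := Nat.lt_div_mul_add (a := v * e) hD0
        rw [← hr] at h6
        exact h6
      · exfalso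
        have h6 := Nat.lt_div_mul_add (a := v * e + (D - 1)) hD0
        rw [← hr] at h6
        omega
    have h6 : e' = e := by
      rcases Nat.lt_trichotomy e' e with h | h | h
      · exfalso
        have h7 := Nat.mul_le_mul_left v (show e' + 1 ≤ e from h)
        rw [Nat.mul_add, Nat.mul_one] at h7
        omega
      · exact h
      · exfalso
        have h7 := Nat.mul_le_mul_left v (show e + 1 ≤ e' from h)
        rw [Nat.mul_add, Nat.mul_one] at h7
        omega
    rw [h6] at hf1 heq
    rw [hf1]
    omega

end Pool.Agent.SVA
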