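import Pool.Agent.helper96.SV.SpecA

set_option autoImplicit false

namespace Pool.Agent.SVA

open Polynomial Module

/-- multiplication by a family of polynomials -/
noncomputable def SEM_mul {K : Type} [Fintype K] [DecidableEq K] {m : K → ℕ} (e : ℕ)
    (φ : Bx m → ℂ[X]) : WW m e →ₗ[ℂ] (Bx m → ℂ[X]) where
  toFun G := fun β => φ β * G.1 β
  map_add' := by
    intro F G
    funext β
    show φ β * (F.1 β + G.1 β) = φ β * F.1 β + φ β * G.1 β
    rw [mul_add]
  map_smul' := by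
    intro s F
    funext β
    show φ β * (s • F.1 β) = s • (φ β * F.1 β)
    rw [mul_smul_comm]

theorem SEM_mul_apply {K : Type} [Fintype K] [DecidableEq K] {m : K → ℕ} (e : ℕ)
    (φ : Bx m → ℂ[X]) (G : WW m e) : SEM_mul e φ G = fun β => φ β * G.1 β := rfl

theorem SEM_mem {K : Type} [Fintype K] [DecidableEq K] {m : K → ℕ} (l : List (Py m × ℂ))
    (F : Bx m → ℂ[X]) : F ∈ (⨅ P ∈ l, Sg P) ↔ ∀ P ∈ l, F ∈ Sg P := by
  simp only [Submodule.mem_iInf]

theorem SEM_fr {K : Type} [Fintype K] [DecidableEq K] {m : K → ℕ} (e : ℕ)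
    (φ : Bx m → ℂ[X]) (l : List (Py m × ℂ)) (M : WW m e →ₗ[ℂ] (Bx m → ℂ[X]))
    (hM : ∀ G : WW m e, M G = fun β => φ β * G.1 β) :
    finrank ℂ ((⨅ P ∈ l, Sg P).comap M) = finrank ℂ (NF e φ l) := by
  have h1 : ((⨅ P ∈ l, Sg P).comap M).map (WW m e).subtype = NF e φ l := by
    ext G
    rw [Submodule.mem_map, mem_NF]
    constructor
    · rintro ⟨G', hG', rfl⟩
      rw [Submodule.mem_comap, SEM_mem, hM] at hG'
      exact ⟨G'.2, hG'⟩
    · rintro ⟨hG, hG'⟩
      refine ⟨⟨G, hG⟩, ?_, rfl⟩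
      rw [Submodule.mem_comap, SEM_mem, hM]
      exact hG'
  rw [← h1]
  exact (Submodule.finrank_map_subtype_eq (WW m e) _).symm

/-- Semicontinuity for a block which collapses to `t₀`. -/
theorem SEM (hLQA : LQA_stmt) (hPHE : PHE_stmt) (hSCL : SCL_stmt) : SEM_stmt := by
  intro K _ _ _ m e l t₀ σ hl
  obtain ⟨ψ, h1, h2, -⟩ := hPHE t₀ σ
  have h3 := hLQA (⨅ P ∈ l, Sg P) (DD m) (fun k => SEM_mul e (ψ k)) (finrank ℂ (NN e l)) (by
    rw [SEM_fr e (ψ 0) l _ (fun G => SEM_mul_apply e (ψ 0) G)]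
    have h4 : NF e (ψ 0) l = NN e l := by
      ext G
      rw [mem_NF, mem_NN, mem_WW]
      refine and_congr_right fun _ => ?_
      refine forall_congr' fun P => ?_
      refine imp_congr_right fun hP => ?_
      have h5 : (fun β => ψ 0 β * G β) = fun β => (X - C t₀) ^ DD m * G β := by
        funext β
        rw [h2]
      rw [h5]
      apply hSCL
      rw [eval_pow, eval_sub, eval_X, eval_C]
      exact pow_ne_zero _ (sub_ne_zero.mpr (hl P hP))
    rw [h4])
  apply h3.subset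
  intro ε hε
  rw [Set.mem_setOf_eq] at hε ⊢
  rw [SEM_fr e (phi (fun α => t₀ + ε * σ α)) l]
  · exact hε
  · intro G
    rw [LinearMap.sum_apply]
    funext β
    rw [Finset.sum_apply, h1, Finset.sum_mul]
    apply Finset.sum_congr rfl
    intro k _
    rw [LinearMap.smul_apply, SEM_mul_apply, Pi.smul_apply, mul_assoc, ← smul_eq_C_mul]

end Pool.Agent.SVA
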